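import Mathlib
import Pool.Agent.Lib.MP_7af27d_pr.Fixed

/-!
A continuous function with finite-dimensional orbit span that converges along a symmetric adapted
random walk is constant.
-/

namespace Pool.Agent.Lib.MP_7af27d_pr.Variants.Constant

open MeasureTheory ProbabilityTheory Filter Topology Pool.Agent.Lib.MP_7af27d_pr
open scoped Pointwise

theorem result {G : Type*} [Group G] [TopologicalSpace G] [IsTopologicalGroup G]
    [MeasurableSpace G] [BorelSpace G] (μ : Measure G) [IsProbabilityMeasure μ]
    (hadapt : ∀ H : Subgroup G, IsClosed (H : Set G) → μ H = 1 → H = ⊤)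
    (hsymm : ∀ A : Set G, MeasurableSet A → μ A = μ A⁻¹)
    {Ω : Type*} [MeasurableSpace Ω] (P : Measure Ω) [IsProbabilityMeasure P]
    (U : ℕ → Ω → G) (hind : iIndepFun U P) (hlaw : ∀ t, HasLaw (U t) μ P)
    (X : ℕ → Ω → G) (hX0 : ∀ ω, X 0 ω = 1) (hX : ∀ t ω, X (t + 1) ω = X t ω * U t ω)
    (f : G → ℝ) (hf : Continuous f)
    (hconv : ∀ x : G, ∀ᵐ ω ∂P, ∃ l : ℝ, Tendsto (fun t => f (x * X t ω)) atTop (𝓝 l))
    (hfin : FiniteDimensional ℝ
      (Submodule.span ℝ (Set.range fun γ : G => fun x : G => f (γ⁻¹ * x)))) :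
    ∀ x y : G, f x = f y := by
  classical
  set V := Submodule.span ℝ (Set.range fun γ : G => fun x : G => f (γ⁻¹ * x)) with hV
  have hXw : ∀ t ω, X t ω = walk (fun i => U i ω) t := by
    intro t ω
    induction t with
    | zero => exact hX0 ω
    | succ t ih => rw [hX, ih]; rfl
  have hVcont : ∀ h ∈ V, Continuous h := by
    intro h hh
    induction hh using Submodule.span_induction with
    | mem h hh =>
      obtain ⟨γ, rfl⟩ := hh
      fun_prop
    | zero => exact continuous_const
    | add a b _ _ ha hb => exact ha.add hb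
    | smul c a _ ha => exact ha.const_smul c
  have hVconv : ∀ h ∈ V, ∀ᵐ ω ∂P, ∃ l : ℝ, Tendsto (fun t => h (X t ω)) atTop (𝓝 l) := by
    intro h hh
    induction hh using Submodule.span_induction with
    | mem h hh =>
      obtain ⟨γ, rfl⟩ := hh
      exact hconv γ⁻¹
    | zero => exact Eventually.of_forall fun ω => ⟨0, tendsto_const_nhds⟩
    | add a b _ _ ha hb =>
      filter_upwards [ha, hb] with ω ⟨l, hl⟩ ⟨l', hl'⟩ using ⟨l + l', hl.add hl'⟩
    | smul c a _ ha =>
      filter_upwards [ha] with ω ⟨l, hl⟩ using ⟨c • l, hl.const_smul c⟩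
  have hVinv : ∀ x : G, ∀ h ∈ V, (fun y => h (x * y)) ∈ V := by
    intro x h hh
    induction hh using Submodule.span_induction with
    | mem h hh =>
      obtain ⟨γ, rfl⟩ := hh
      refine Submodule.subset_span ⟨x⁻¹ * γ, ?_⟩
      funext y
      simp [mul_assoc]
    | zero => exact V.zero_mem
    | add a b _ _ ha hb => exact V.add_mem ha hb
    | smul c a _ ha => exact V.smul_mem c ha
  let b := Module.finBasis ℝ V
  let e : G → Fin (Module.finrank ℝ V) → ℝ := fun y i => (b i : G → ℝ) y
  have hrepr : ∀ (h : V) (y : G), (h : G → ℝ) y = ∑ i, b.repr h i * e y i := by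
    intro h y
    have := congrArg V.subtype (b.sum_repr h)
    rw [map_sum] at this
    have h2 := congrFun this y
    rw [Finset.sum_apply] at h2
    exact h2.symm
  have hspan : Submodule.span ℝ (Set.range e) = ⊤ := by
    by_contra hne
    obtain ⟨φ, hφ0, hφ⟩ := Submodule.exists_le_ker_of_lt_top _ (lt_top_iff_ne_top.2 hne)
    apply hφ0
    let c : Fin (Module.finrank ℝ V) → ℝ := fun i => φ fun j => if i = j then 1 else 0
    have hc : b.equivFun.symm c = 0 := by
      apply Subtype.ext
      funext y
      rw [hrepr]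
      have h1 : φ (e y) = 0 := hφ (Submodule.subset_span ⟨y, rfl⟩)
      rw [LinearMap.pi_apply_eq_sum_univ] at h1
      refine Eq.trans (Finset.sum_congr rfl fun i _ => ?_) h1
      rw [← b.equivFun_apply, LinearEquiv.apply_symm_apply, smul_eq_mul, mul_comm]
    have hc0 : c = 0 := b.equivFun.symm.injective (hc.trans (map_zero _).symm)
    apply LinearMap.ext
    intro v
    rw [LinearMap.pi_apply_eq_sum_univ]
    refine Finset.sum_eq_zero fun i _ => ?_
    have : c i = 0 := congrFun hc0 i
    simp only [c] at this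
    rw [this, smul_zero]
  have hex : ∀ x : G, ∃ A : (Fin (Module.finrank ℝ V) → ℝ) →L[ℝ] (Fin (Module.finrank ℝ V) → ℝ),
      ∀ y, A (e y) = e (x * y) := by
    intro x
    refine ⟨LinearMap.toContinuousLinearMap (Matrix.mulVecLin (Matrix.of fun i j =>
      b.repr ⟨fun y => (b i : G → ℝ) (x * y), hVinv x _ (b i).2⟩ j)), fun y => ?_⟩
    funext i
    exact (hrepr ⟨fun y => (b i : G → ℝ) (x * y), hVinv x _ (b i).2⟩ y).symm
  choose A hA using hex
  have hext : ∀ B B' : (Fin (Module.finrank ℝ V) → ℝ) →L[ℝ] (Fin (Module.finrank ℝ V) → ℝ),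
      (∀ y, B (e y) = B' (e y)) → B = B' := by
    intro B B' h
    apply ContinuousLinearMap.coe_injective
    apply LinearMap.ext_on_range hspan
    exact h
  let ρ : G →* ((Fin (Module.finrank ℝ V) → ℝ) →L[ℝ] (Fin (Module.finrank ℝ V) → ℝ)) :=
    { toFun := A
      map_one' := hext _ _ fun y => by rw [hA, one_mul]; rfl
      map_mul' := fun x x' => hext _ _ fun y => by
        change A (x * x') (e y) = A x (A x' (e y))
        rw [hA, hA, hA, mul_assoc] }
  have hecont : Continuous e := continuous_pi fun i => hVcont _ (b i).2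
  have hρ : Continuous ρ := by
    rw [continuous_clm_apply]
    intro v
    have hv : v ∈ Submodule.span ℝ (Set.range e) := hspan ▸ Submodule.mem_top
    induction hv using Submodule.span_induction with
    | mem v hv =>
      obtain ⟨y, rfl⟩ := hv
      have : (fun x => ρ x (e y)) = fun x => e (x * y) := funext fun x => hA x y
      rw [this]
      fun_prop
    | zero => simpa using continuous_const
    | add u v _ _ hu hv =>
      simp only [map_add]
      exact hu.add hv
    | smul c u _ hu =>
      simp only [map_smul]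
      exact hu.const_smul c
  have hρe : ∀ x, ρ x (e 1) = e x := fun x => (hA x 1).trans (by rw [mul_one])
  have hsymm' : μ.map (fun g => g⁻¹) = μ := by
    ext A hA
    rw [Measure.map_apply measurable_inv hA, hsymm A hA]
    rfl
  have hfix := fixed_of_walk μ hadapt hsymm' hind hlaw ρ hρ (e 1) (by
    filter_upwards [ae_all_iff.2 fun i => hVconv _ (b i).2] with ω hω
    choose l hl using hω
    have h1 : Tendsto (fun t => e (X t ω)) atTop (𝓝 l) := tendsto_pi_nhds.2 hl
    have h2 := ((tendsto_add_atTop_iff_nat (f := fun t => e (X t ω)) 1).2 h1).sub h1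
    rw [sub_self] at h2
    simpa only [hρe, hXw] using h2)
  have hfV : f ∈ V := Submodule.subset_span ⟨1, by simp⟩
  intro x y
  have h1 := hrepr ⟨f, hfV⟩ x
  have h2 := hrepr ⟨f, hfV⟩ y
  rw [← hρe x, hfix] at h1
  rw [← hρe y, hfix] at h2
  exact h1.trans h2.symm

end Pool.Agent.Lib.MP_7af27d_pr.Variants.Constant
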